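import Pool.Agent.Helper37.OF.St

/-! # OF MODULE WRD: words of quadruples -/

set_option autoImplicit false

namespace Pool.Agent.Helper48.OF

open Pool.Agent.Helper37.OF Monoid Pool.Agent.Helper4.FS

universe u v w x

section

variable {G : Type w} [Group G] {X : Type x}

open Classical in
/-- optional letter of the base copy -/
noncomputable def ol (X : Type x) (α : G) : List (Option X × G) :=
  if α = 1 then [] else [(none, α)]

/-- letters of a quadruple -/
noncomputable def ql (τ : G) (p : G × X × G × X) : List (Option X × G) :=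
  ol X p.1 ++ ((some p.2.1, τ) :: (ol X p.2.2.1 ++ [(some p.2.2.2, τ⁻¹)]))

open Classical in
/-- first letter of a quadruple -/
noncomputable def fl (τ : G) (p : G × X × G × X) : Option X × G :=
  if p.1 = 1 then (some p.2.1, τ) else (none, p.1)

theorem lp_cons {I : Type x} (p : I × G) (L : List (I × G)) : lp (p :: L) = ofi p.1 p.2 * lp L := by
  simp [Pool.Agent.Helper37.OF.lp]

theorem lp_append {I : Type x} (L L' : List (I × G)) : lp (L ++ L') = lp L * lp L' := by
  simp [Pool.Agent.Helper37.OF.lp]

theorem lp_nil {I : Type x} : lp ([] : List (I × G)) = 1 := by simp [Pool.Agent.Helper37.OF.lp]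

theorem lp_ol (α : G) : lp (ol X α) = (ofi none α : Fp G (Option X)) := by
  unfold ol
  split_ifs with h
  · rw [lp_nil, h, ofi_one]
  · rw [lp_cons, lp_nil, mul_one]

theorem lp_ql (τ : G) (p : G × X × G × X) : lp (ql τ p) =
    ofi none p.1 * ofi (some p.2.1) τ * ofi none p.2.2.1 * (ofi (some p.2.2.2) τ)⁻¹ := by
  unfold ql
  rw [lp_append, lp_cons, lp_append, lp_cons, lp_nil, lp_ol, lp_ol, mul_one, ofi_inv]
  simp only [mul_assoc]

theorem lp_flat (τ : G) (L : List (G × X × G × X)) : lp (L.flatMap (ql τ)) = Wq τ L := by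
  induction L with
  | nil => simp [Pool.Agent.Helper37.OF.lp, Wq]
  | cons p l ih =>
    rw [List.flatMap_cons, lp_append, ih, lp_ql]
    simp [Wq]

theorem head_ql (τ : G) (p : G × X × G × X) (l : List (Option X × G)) :
    (ql τ p ++ l).head? = some (fl τ p) := by
  unfold ql fl ol
  by_cases h : p.1 = 1
  · simp [h]
  · simp [h]

theorem last_ql (τ : G) (p : G × X × G × X) :
    (ql τ p).getLast? = some (some p.2.2.2, τ⁻¹) := by
  unfold ql
  simp [List.getLast?_append, List.getLast?_cons]

theorem chain_ql (τ : G) (p : G × X × G × X) (h : p.2.1 = p.2.2.2 → p.2.2.1 ≠ 1) :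
    (ql τ p).IsChain (fun p q => p.1 ≠ q.1) := by
  unfold ql ol
  by_cases h1 : p.1 = 1
  · by_cases h2 : p.2.2.1 = 1
    · have h3 : p.2.1 ≠ p.2.2.2 := fun e => h e h2
      simp [h1, h2, h3]
    · simp [h1, h2]
  · by_cases h2 : p.2.2.1 = 1
    · have h3 : p.2.1 ≠ p.2.2.2 := fun e => h e h2
      simp [h1, h2, h3]
    · simp [h1, h2]

theorem ne_ql (τ : G) (hτ : τ ≠ 1) (p : G × X × G × X) : ∀ q ∈ ql τ p, q.2 ≠ 1 := by
  intro q hq
  unfold ql ol at hq
  have hτ' : τ⁻¹ ≠ 1 := inv_ne_one.2 hτ
  by_cases h1 : p.1 = 1 <;> by_cases h2 : p.2.2.1 = 1 <;> simp [h1, h2] at hq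
  · rcases hq with rfl | rfl
    · exact hτ
    · exact hτ'
  · rcases hq with rfl | rfl | rfl
    · exact hτ
    · exact h2
    · exact hτ'
  · rcases hq with rfl | rfl | rfl
    · exact h1
    · exact hτ
    · exact hτ'
  · rcases hq with rfl | rfl | rfl | rfl
    · exact h1
    · exact hτ
    · exact h2
    · exact hτ'

theorem head_flat (τ : G) (p : G × X × G × X) (l : List (G × X × G × X)) :
    ((p :: l).flatMap (ql τ)).head? = some (fl τ p) := by
  rw [List.flatMap_cons, head_ql]

theorem last_flat (τ : G) (L : List (G × X × G × X)) (hL : L ≠ []) :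
    (L.flatMap (ql τ)).getLast? = some (some (L.getLast hL).2.2.2, τ⁻¹) := by
  induction L with
  | nil => exact absurd rfl hL
  | cons p l ih =>
    rw [List.flatMap_cons, List.getLast?_append]
    rcases eq_or_ne l [] with rfl | hl
    · simp [last_ql]
    · rw [ih hl, List.getLast_cons hl]
      rfl

theorem chain_flat (τ : G) (L : List (G × X × G × X))
    (h1 : ∀ p ∈ L, p.2.1 = p.2.2.2 → p.2.2.1 ≠ 1)
    (h2 : L.IsChain (fun p q => p.2.2.2 = q.2.1 → q.1 ≠ 1)) :
    (L.flatMap (ql τ)).IsChain (fun p q => p.1 ≠ q.1) := by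
  induction L with
  | nil => simp
  | cons p l ih =>
    rw [List.flatMap_cons, List.isChain_append]
    refine ⟨chain_ql τ p (h1 p (by simp)), ih (fun q hq => h1 q (by simp [hq])) ?_, ?_⟩
    · exact h2.of_cons
    · intro a ha b hb
      rw [last_ql] at ha
      have ea : a = (some p.2.2.2, τ⁻¹) := by simpa using ha.symm
      cases l with
      | nil => simp at hb
      | cons q l' =>
        rw [head_flat] at hb
        have eb : b = fl τ q := by simpa using hb.symm
        rw [ea, eb]
        have h3 : p.2.2.2 = q.2.1 → q.1 ≠ 1 := by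
          rw [List.isChain_cons_cons] at h2
          exact h2.1
        unfold fl
        split_ifs with h4
        · intro h5
          exact h3 (Option.some.inj h5) h4
        · simp

end

theorem hWRD (hCYC : StCYC.{w, x}) : StWRD.{w, x} := by
  intro G _ X τ L hL hτ h1 h2 h3 p hp
  have hΛ : L.flatMap (ql τ) ≠ [] := by
    intro h
    have := last_flat τ L hL
    rw [h] at this
    simp at this
  have hne : ∀ q ∈ L.flatMap (ql τ), q.2 ≠ 1 := by
    intro q hq
    rw [List.mem_flatMap] at hq
    obtain ⟨p', -, hq'⟩ := hq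
    exact ne_ql τ hτ p' q hq'
  have hlast : (L.flatMap (ql τ)).getLast hΛ = (some (L.getLast hL).2.2.2, τ⁻¹) := by
    have e := last_flat τ L hL
    rw [List.getLast?_eq_some_getLast hΛ] at e
    exact Option.some.inj e
  have hhead : (L.flatMap (ql τ)).head hΛ = fl τ (L.head hL) := by
    have e : (L.flatMap (ql τ)).head? = some (fl τ (L.head hL)) := by
      cases L with
      | nil => exact absurd rfl hL
      | cons a l => exact head_flat τ a l
    rw [List.head?_eq_some_head hΛ] at e
    exact Option.some.inj e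
  have hc := hCYC G (Option X) (L.flatMap (ql τ)) hΛ hne (chain_flat τ L h1 h2) (by
    rw [hlast, hhead]
    unfold fl
    split_ifs with h4
    · intro h5
      exact h3 (Option.some.inj h5) h4
    · simp)
  rw [lp_flat] at hc
  constructor
  · refine hc (some p.2.1, τ) ?_
    rw [List.mem_flatMap]
    exact ⟨p, hp, by simp [ql]⟩
  · refine hc (some p.2.2.2, τ⁻¹) ?_
    rw [List.mem_flatMap]
    exact ⟨p, hp, by simp [ql]⟩

end Pool.Agent.Helper48.OF
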